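import Pool.Agent.W734.TWB.Stms

/-! TWB-H2: Hardy's inequality for a pair in the unit box. -/

set_option autoImplicit false

noncomputable section

namespace Pool.Agent.W486.TWB

open Pool.Agent.W734.TWB
open MeasureTheory Set Filter Metric

variable {n : ℕ}

/-- centre in the slot `i` inside, others in the unit cube -/
def GG (τ : ℝ) (i j : Fin n) : Set (Cfg n) :=
  {x | (∀ a, x i a ∈ Set.Ico (τ / 2) (1 - τ / 2)) ∧
    ∀ l, l ≠ i → l ≠ j → ∀ a, x l a ∈ Set.Ico (0 : ℝ) 1}

theorem T2_i {i j : Fin n} (hij : i ≠ j) (x : Cfg n) : T2 i j x i = x i + (1 / 2 : ℝ) • x j := by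
  unfold T2
  rw [Function.update_of_ne hij, Function.update_self]

theorem T2_j {i j : Fin n} (x : Cfg n) : T2 i j x j = x i - (1 / 2 : ℝ) • x j := by
  unfold T2
  rw [Function.update_self]

theorem T2_l {i j l : Fin n} (hi : l ≠ i) (hj : l ≠ j) (x : Cfg n) : T2 i j x l = x l := by
  unfold T2
  rw [Function.update_of_ne hj, Function.update_of_ne hi]

theorem abs_le_norm (y : E3) (a : Fin 3) : |y a| ≤ ‖y‖ := by
  have := EuclideanSpace.norm_eq y
  rw [this, ← Real.sqrt_sq_eq_abs]
  apply Real.sqrt_le_sqrt
  have h := Finset.single_le_sum (f := fun a => ‖y a‖ ^ 2) (fun a _ => by positivity)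
    (Finset.mem_univ a)
  simpa using h

/-- membership in `nearD` after the change of variables -/
theorem mem_near {τ : ℝ} (hτ : 0 < τ) {i j : Fin n} (hij : i ≠ j) (x : Cfg n) (y : E3) :
    T2 i j (Function.update x j y) ∈ nearD τ i j ↔ x ∈ GG τ i j ∧ ‖y‖ < τ / 4 := by
  have h1 : T2 i j (Function.update x j y) i = x i + (1 / 2 : ℝ) • y := by
    rw [T2_i hij, Function.update_of_ne hij, Function.update_self]
  have h2 : T2 i j (Function.update x j y) j = x i - (1 / 2 : ℝ) • y := by
    rw [T2_j, Function.update_of_ne hij, Function.update_self]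
  have h3 : ∀ l, l ≠ i → l ≠ j → T2 i j (Function.update x j y) l = x l := by
    intro l hi hj
    rw [T2_l hi hj, Function.update_of_ne hj]
  have hc : (1 / 2 : ℝ) • (T2 i j (Function.update x j y) i + T2 i j (Function.update x j y) j)
      = x i := by
    rw [h1, h2]
    have : x i + (1 / 2 : ℝ) • y + (x i - (1 / 2 : ℝ) • y) = (2 : ℝ) • x i := by
      rw [two_smul]; abel
    rw [this, smul_smul]; norm_num
  have hd : T2 i j (Function.update x j y) i - T2 i j (Function.update x j y) j = y := by
    rw [h1, h2]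
    have : x i + (1 / 2 : ℝ) • y - (x i - (1 / 2 : ℝ) • y) = (1 / 2 : ℝ) • y + (1 / 2 : ℝ) • y := by
      abel
    rw [this, ← add_smul]; norm_num
  unfold nearD GG
  simp only [Set.mem_ofPred_eq]
  rw [hc, hd]
  constructor
  · rintro ⟨hb, hz, hy⟩
    refine ⟨⟨hz, ?_⟩, hy⟩
    intro l hi hj a
    have := hb l a
    rw [h3 l hi hj] at this
    simpa using this
  · rintro ⟨⟨hz, hl⟩, hy⟩
    refine ⟨?_, hz, hy⟩
    intro l a
    have hya := abs_le_norm y a
    have hza := hz a
    simp only [Set.mem_Ico] at hza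
    rw [abs_le] at hya
    by_cases hi : l = i
    · subst hi
      rw [h1]
      simp only [PiLp.add_apply, PiLp.smul_apply, smul_eq_mul, PiLp.zero_apply, zero_add,
        Set.mem_Ico]
      constructor <;> linarith [hya.1, hya.2, hza.1, hza.2]
    by_cases hj : l = j
    · subst hj
      rw [h2]
      simp only [PiLp.sub_apply, PiLp.smul_apply, smul_eq_mul, PiLp.zero_apply, zero_add,
        Set.mem_Ico]
      constructor <;> linarith [hya.1, hya.2, hza.1, hza.2]
    rw [h3 l hi hj]
    simpa using hl l hi hj a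

/-- the larger region -/
def RR2 (τ : ℝ) (i j : Fin n) : Set (Cfg n) := {x | x ∈ GG τ i j ∧ ‖x j‖ < τ / 2}

theorem GG_update {τ : ℝ} {i j : Fin n} (hij : i ≠ j) (x : Cfg n) (y : E3) :
    Function.update x j y ∈ GG τ i j ↔ x ∈ GG τ i j := by
  unfold GG
  simp only [Set.mem_ofPred_eq]
  rw [Function.update_of_ne hij]
  refine and_congr Iff.rfl ?_
  refine forall_congr' fun l => forall_congr' fun hi => forall_congr' fun hj => ?_
  rw [Function.update_of_ne hj]

theorem RR2_box {τ : ℝ} (hτ : 0 < τ) {i j : Fin n} (hij : i ≠ j) {x : Cfg n}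
    (hx : x ∈ RR2 τ i j) : T2 i j x ∈ box 0 1 n := by
  obtain ⟨⟨hz, hl⟩, hy⟩ := hx
  intro l a
  have hya := abs_le_norm (x j) a
  have hza := hz a
  simp only [Set.mem_Ico] at hza
  rw [abs_le] at hya
  by_cases hi : l = i
  · subst hi
    rw [T2_i hij]
    simp only [PiLp.add_apply, PiLp.smul_apply, smul_eq_mul, PiLp.zero_apply, zero_add,
      Set.mem_Ico]
    constructor <;> linarith [hya.1, hya.2, hza.1, hza.2]
  by_cases hj : l = j
  · subst hj
    rw [T2_j]
    simp only [PiLp.sub_apply, PiLp.smul_apply, smul_eq_mul, PiLp.zero_apply, zero_add,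
      Set.mem_Ico]
    constructor <;> linarith [hya.1, hya.2, hza.1, hza.2]
  rw [T2_l hi hj]
  simpa using hl l hi hj a

/-! ### measurability and continuity -/

theorem cont_coord (l : Fin n) (a : Fin 3) : Continuous fun x : Cfg n => x l a := by
  fun_prop

theorem meas_box : MeasurableSet (box (0 : E3) 1 n) := by
  have : box (0 : E3) 1 n = ⋂ l : Fin n, ⋂ a : Fin 3,
      (fun x : Cfg n => x l a) ⁻¹' Set.Ico ((0 : E3) a) ((0 : E3) a + 1) := by
    ext x; simp [box]
  rw [this]
  exact MeasurableSet.iInter fun l => MeasurableSet.iInter fun a =>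
    (cont_coord l a).measurable measurableSet_Ico

theorem meas_GG (τ : ℝ) (i j : Fin n) : MeasurableSet (GG τ i j) := by
  have : GG τ i j = (⋂ a : Fin 3, (fun x : Cfg n => x i a) ⁻¹' Set.Ico (τ / 2) (1 - τ / 2)) ∩
      ⋂ l : Fin n, ⋂ (_ : l ≠ i), ⋂ (_ : l ≠ j), ⋂ a : Fin 3,
        (fun x : Cfg n => x l a) ⁻¹' Set.Ico (0 : ℝ) 1 := by
    ext x; simp [GG]
  rw [this]
  refine (MeasurableSet.iInter fun a => (cont_coord i a).measurable measurableSet_Ico).inter ?_
  exact MeasurableSet.iInter fun l => MeasurableSet.iInter fun _ => MeasurableSet.iInter fun _ =>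
    MeasurableSet.iInter fun a => (cont_coord l a).measurable measurableSet_Ico

theorem meas_RR2 (τ : ℝ) (i j : Fin n) : MeasurableSet (RR2 τ i j) := by
  have : RR2 τ i j = GG τ i j ∩ (fun x : Cfg n => ‖x j‖) ⁻¹' Set.Iio (τ / 2) := by
    ext x; simp [RR2]
  rw [this]
  exact (meas_GG τ i j).inter ((by fun_prop : Continuous fun x : Cfg n => ‖x j‖).measurable
    measurableSet_Iio)

theorem meas_near (τ : ℝ) (i j : Fin n) : MeasurableSet (nearD τ i j) := by
  have : nearD τ i j = box 0 1 n ∩ ((⋂ a : Fin 3,
      (fun x : Cfg n => ((1 / 2 : ℝ) • (x i + x j)) a) ⁻¹' Set.Ico (τ / 2) (1 - τ / 2)) ∩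
      (fun x : Cfg n => ‖x i - x j‖) ⁻¹' Set.Iio (τ / 4)) := by
    ext x; simp [nearD]; tauto
  rw [this]
  refine meas_box.inter (MeasurableSet.inter ?_ ?_)
  · exact MeasurableSet.iInter fun a =>
      (by fun_prop : Continuous fun x : Cfg n => ((1 / 2 : ℝ) • (x i + x j)) a).measurable
        measurableSet_Ico
  · exact (by fun_prop : Continuous fun x : Cfg n => ‖x i - x j‖).measurable measurableSet_Iio

theorem cont_T2 (i j : Fin n) : Continuous (T2 (n := n) i j) := by
  unfold T2
  refine Continuous.update (Continuous.update continuous_id i ?_) j ?_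
  · fun_prop
  · fun_prop

theorem cont_kin {F : Cfg n → ℂ} (hF : ContDiff ℝ 1 F) : Continuous (kin F) := by
  unfold kin gsq
  have h := hF.continuous_fderiv (by norm_num)
  refine continuous_finsetSum _ fun i _ => continuous_finsetSum _ fun k _ => ?_
  exact ((h.clm_apply continuous_const).norm).pow 2

theorem kin_nonneg (F : Cfg n → ℂ) (x : Cfg n) : 0 ≤ kin F x := by
  unfold kin gsq; positivity

theorem box_sub : box (0 : E3) 1 n ⊆ Metric.closedBall (0 : Cfg n) 2 := by
  intro x hx
  rw [mem_closedBall_zero_iff, pi_norm_le_iff_of_nonneg (by norm_num)]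
  intro l
  rw [EuclideanSpace.norm_eq]
  apply Real.sqrt_le_iff.2
  refine ⟨by norm_num, ?_⟩
  have : ∀ a : Fin 3, ‖x l a‖ ^ 2 ≤ 1 := by
    intro a
    have := hx l a
    simp only [PiLp.zero_apply, zero_add, Set.mem_Ico] at this
    rw [Real.norm_eq_abs, sq_abs]
    nlinarith [this.1, this.2]
  calc ∑ a, ‖x l a‖ ^ 2 ≤ ∑ a : Fin 3, (1 : ℝ) := Finset.sum_le_sum fun a _ => this a
    _ ≤ 2 ^ 2 := by simp; norm_num

theorem int_box {g : Cfg n → ℝ} (hg : Continuous g) : IntegrableOn g (box 0 1 n) :=
  (hg.continuousOn.integrableOn_compact (isCompact_closedBall (0 : Cfg n) 2)).mono_set box_sub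

/-! ### the one variable function -/

/-- `y ↦ F (z + y/2, z - y/2, …) - c` -/
def uu (F : Cfg n → ℂ) (c : ℂ) (i j : Fin n) (x : Cfg n) (y : E3) : ℂ :=
  F (T2 i j (Function.update x j y)) - c

/-- direction of motion -/
def LL (i j : Fin n) : E3 →L[ℝ] Cfg n :=
  (1 / 2 : ℝ) • ContinuousLinearMap.single ℝ (fun _ : Fin n => E3) i
    - (1 / 2 : ℝ) • ContinuousLinearMap.single ℝ (fun _ : Fin n => E3) j

theorem T2_aff {i j : Fin n} (hij : i ≠ j) (x : Cfg n) (y : E3) :
    T2 i j (Function.update x j y) = T2 i j (Function.update x j 0) + LL i j y := by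
  funext l
  by_cases hi : l = i
  · subst hi
    simp [T2_i hij, LL, Function.update_of_ne hij, Pi.single_eq_of_ne hij]
  by_cases hj : l = j
  · subst hj
    simp [T2_j, LL, Function.update_of_ne hij, Pi.single_eq_of_ne (Ne.symm hij), sub_eq_add_neg]
  simp [T2_l hi hj, LL, Function.update_of_ne hj, Pi.single_eq_of_ne hi, Pi.single_eq_of_ne hj]

theorem uu_diff {F : Cfg n → ℂ} (hF : ContDiff ℝ 1 F) (c : ℂ) {i j : Fin n} (hij : i ≠ j)
    (x : Cfg n) : ContDiff ℝ 1 (uu F c i j x) := by
  have e : uu F c i j x = fun y => F (T2 i j (Function.update x j 0) + LL i j y) - c := by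
    funext y; unfold uu; rw [T2_aff hij x y]
  rw [e]
  exact (hF.comp (contDiff_const.add (LL i j).contDiff)).sub contDiff_const

theorem uu_fd {F : Cfg n → ℂ} (hF : ContDiff ℝ 1 F) (c : ℂ) {i j : Fin n} (hij : i ≠ j)
    (x : Cfg n) (y v : E3) :
    fderiv ℝ (uu F c i j x) y v
      = fderiv ℝ F (T2 i j (Function.update x j y)) (LL i j v) := by
  have h1 : HasFDerivAt (fun y => T2 i j (Function.update x j y)) (LL i j) y := by
    have e : (fun y => T2 i j (Function.update x j y))
        = fun y => T2 i j (Function.update x j 0) + LL i j y := by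
      funext y; rw [T2_aff hij x y]
    rw [e]
    exact (LL i j).hasFDerivAt.const_add _
  have h2 : HasFDerivAt F (fderiv ℝ F (T2 i j (Function.update x j y)))
      (T2 i j (Function.update x j y)) :=
    (hF.differentiable (by norm_num) _).hasFDerivAt
  have h3 := (h2.comp y h1).sub_const c
  have : fderiv ℝ (uu F c i j x) y
      = (fderiv ℝ F (T2 i j (Function.update x j y))).comp (LL i j) := h3.fderiv
  rw [this]; rfl

theorem uu_g3 {F : Cfg n → ℂ} (hF : ContDiff ℝ 1 F) (c : ℂ) {i j : Fin n} (hij : i ≠ j)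
    (x : Cfg n) (y : E3) :
    8 * g3 (uu F c i j x) y ≤ 4 * kin F (T2 i j (Function.update x j y)) := by
  set w := T2 i j (Function.update x j y) with hw
  have h1 : g3 (uu F c i j x) y ≤ 1 / 2 * (gsq F i w + gsq F j w) := by
    unfold g3 gsq
    rw [← Finset.sum_add_distrib, Finset.mul_sum]
    refine Finset.sum_le_sum fun k _ => ?_
    rw [uu_fd hF c hij, ← hw]
    have e : LL i j (EuclideanSpace.single k (1 : ℝ))
        = (1 / 2 : ℝ) • (Pi.single i (EuclideanSpace.single k (1 : ℝ)) : Cfg n)
          - (1 / 2 : ℝ) • (Pi.single j (EuclideanSpace.single k (1 : ℝ)) : Cfg n) := by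
      simp [LL]
    rw [e, map_sub, map_smul, map_smul]
    set A := fderiv ℝ F w (Pi.single i (EuclideanSpace.single k (1 : ℝ)))
    set B := fderiv ℝ F w (Pi.single j (EuclideanSpace.single k (1 : ℝ)))
    have h2 : ‖(1 / 2 : ℝ) • A - (1 / 2 : ℝ) • B‖ ≤ 1 / 2 * ‖A‖ + 1 / 2 * ‖B‖ := by
      refine (norm_sub_le _ _).trans (le_of_eq ?_)
      rw [norm_smul, norm_smul]; norm_num
    have h3 : ‖(1 / 2 : ℝ) • A - (1 / 2 : ℝ) • B‖ ^ 2 ≤ (1 / 2 * ‖A‖ + 1 / 2 * ‖B‖) ^ 2 :=
      pow_le_pow_left₀ (norm_nonneg _) h2 2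
    nlinarith [sq_nonneg (‖A‖ - ‖B‖)]
  have h2 : gsq F i w + gsq F j w ≤ kin F w := by
    unfold kin
    have : ∑ l ∈ ({i, j} : Finset (Fin n)), gsq F l w ≤ ∑ l, gsq F l w := by
      refine Finset.sum_le_sum_of_subset_of_nonneg (Finset.subset_univ _) fun l _ _ => ?_
      unfold gsq; positivity
    rwa [Finset.sum_pair hij] at this
  linarith

/-! ### the estimate -/

theorem pint (τ : ℝ) (hI : S_INV) (j : Fin n) :
    Integrable (fun x : Cfg n => ∏ l, (if l = j then
      (ball (0 : E3) (τ / 4)).indicator (fun y => (‖y‖ ^ 2)⁻¹) (x l)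
      else (Metric.closedBall (0 : E3) 2).indicator (fun _ => (1 : ℝ)) (x l))) := by
  have h := MeasureTheory.Integrable.fintype_prod (𝕜 := ℝ) (ι := Fin n) (E := E3)
    (μ := fun _ => (volume : Measure E3))
    (f := fun l y => if l = j then (ball (0 : E3) (τ / 4)).indicator (fun y => (‖y‖ ^ 2)⁻¹) y
      else (Metric.closedBall (0 : E3) 2).indicator (fun _ => (1 : ℝ)) y) (by
      intro l
      by_cases h : l = j
      · simp only [h, if_true]
        exact (hI.1 (τ / 4)).integrable_indicator measurableSet_ball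
      · simp only [h, if_false]
        refine IntegrableOn.integrable_indicator ?_ measurableSet_closedBall
        exact integrableOn_const (by
          exact (isCompact_closedBall (0 : E3) 2).measure_lt_top.ne) (by simp))
  exact h

theorem cube_norm {z : E3} {a b : ℝ} (ha : 0 ≤ a) (hb : b ≤ 1)
    (h : ∀ k, z k ∈ Set.Ico a b) : ‖z‖ ≤ 2 := by
  rw [EuclideanSpace.norm_eq]
  apply Real.sqrt_le_iff.2
  refine ⟨by norm_num, ?_⟩
  have : ∀ k : Fin 3, ‖z k‖ ^ 2 ≤ 1 := by
    intro k
    have := h k
    simp only [Set.mem_Ico] at this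
    rw [Real.norm_eq_abs, sq_abs]
    nlinarith [this.1, this.2]
  calc ∑ k, ‖z k‖ ^ 2 ≤ ∑ k : Fin 3, (1 : ℝ) := Finset.sum_le_sum fun k _ => this k
    _ ≤ 2 ^ 2 := by simp; norm_num

theorem prod_one {τ : ℝ} (hτ : 0 < τ) {i j : Fin n} {x : Cfg n}
    (hx : x ∈ GG τ i j) (hy : ‖x j‖ < τ / 4) :
    (∏ l, (if l = j then
      (ball (0 : E3) (τ / 4)).indicator (fun y => (‖y‖ ^ 2)⁻¹) (x l)
      else (Metric.closedBall (0 : E3) 2).indicator (fun _ => (1 : ℝ)) (x l)))
      = (‖x j‖ ^ 2)⁻¹ := by
  rw [Finset.prod_eq_single j]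
  · rw [if_pos rfl, Set.indicator_of_mem]
    rw [mem_ball_zero_iff]; exact hy
  · intro l _ hl
    rw [if_neg hl, Set.indicator_of_mem]
    rw [mem_closedBall_zero_iff]
    by_cases hi : l = i
    · subst hi
      exact cube_norm (by positivity) (by linarith) hx.1
    · exact cube_norm le_rfl le_rfl (hx.2 l hi hl)
  · intro h; exact absurd (Finset.mem_univ j) h

theorem h2 (hI : S_INV) (hCov : S_COV) (hFub : S_FUB) (hHL : S_HL) : S_H2 := by
  intro n τ hτ
  obtain ⟨C, hC, hHL'⟩ := hHL (τ / 2) (by positivity)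
  refine ⟨4 + C, by positivity, ?_⟩
  intro i j hij F hF c
  obtain ⟨hmp, -⟩ := (hCov n).1 i j hij
  have hFc : Continuous fun x => ‖F x - c‖ ^ 2 := by
    have := hF.continuous
    fun_prop
  set q : Cfg n → ℝ := fun x => ‖F x - c‖ ^ 2 / ‖x i - x j‖ ^ 2 with hq
  set K : Cfg n → ℝ := fun x => 4 * kin F x + C * ‖F x - c‖ ^ 2 with hK
  have hKc : Continuous K := (continuous_const.mul (cont_kin hF)).add (continuous_const.mul hFc)
  have hK0 : ∀ x, 0 ≤ K x := by
    intro x
    have := kin_nonneg F x
    simp only [hK]; positivity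
  have hqm : Measurable q := by
    have h2 : Continuous fun x : Cfg n => ‖x i - x j‖ ^ 2 := by fun_prop
    exact hFc.measurable.div h2.measurable
  have hq0 : ∀ x, 0 ≤ q x := fun x => by simp only [hq]; positivity
  have hfm : AEStronglyMeasurable ((nearD τ i j).indicator q) (volume : Measure (Cfg n)) :=
    (hqm.indicator (meas_near τ i j)).aestronglyMeasurable
  obtain ⟨B, hB0, hB⟩ : ∃ B : ℝ, 0 ≤ B ∧ ∀ x ∈ box (0 : E3) 1 n, ‖F x - c‖ ^ 2 ≤ B := by
    obtain ⟨B, hB⟩ := (isCompact_closedBall (0 : Cfg n) 2).exists_bound_of_continuousOn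
      hFc.continuousOn
    refine ⟨max B 0, le_max_right _ _, fun x hx => ?_⟩
    have := hB x (box_sub hx)
    rw [Real.norm_of_nonneg (by positivity)] at this
    exact this.trans (le_max_left _ _)
  have hself : ∀ x : Cfg n, Function.update x j (x j) = x := fun x => Function.update_eq_self j x
  have hcomp : Integrable (fun x => (nearD τ i j).indicator q (T2 i j x)) := by
    refine Integrable.mono' ((pint τ hI j).const_mul B) ?_ (ae_of_all _ fun x => ?_)
    · exact ((hqm.indicator (meas_near τ i j)).comp (cont_T2 i j).measurable).aestronglyMeasurable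
    · have hp0 : 0 ≤ ∏ l, (if l = j then
          (ball (0 : E3) (τ / 4)).indicator (fun y => (‖y‖ ^ 2)⁻¹) (x l)
          else (Metric.closedBall (0 : E3) 2).indicator (fun _ => (1 : ℝ)) (x l)) := by
        refine Finset.prod_nonneg fun l _ => ?_
        split_ifs
        · exact Set.indicator_nonneg (fun y _ => by positivity) _
        · exact Set.indicator_nonneg (fun y _ => by norm_num) _
      by_cases hx : T2 i j x ∈ nearD τ i j
      · have hx' := hx
        rw [← hself x, mem_near hτ hij] at hx'
        rw [Set.indicator_of_mem hx, prod_one hτ hx'.1 hx'.2, Real.norm_of_nonneg (hq0 _)]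
        simp only [hq]
        have hd : T2 i j x i - T2 i j x j = x j := by
          rw [T2_i hij, T2_j]
          have : x i + (1 / 2 : ℝ) • x j - (x i - (1 / 2 : ℝ) • x j)
              = (1 / 2 : ℝ) • x j + (1 / 2 : ℝ) • x j := by abel
          rw [this, ← add_smul]; norm_num
        rw [hd, div_eq_mul_inv]
        exact mul_le_mul_of_nonneg_right (hB _ hx.1) (by positivity)
      · rw [Set.indicator_of_notMem hx, norm_zero]
        exact mul_nonneg hB0 hp0
  have hfi : Integrable ((nearD τ i j).indicator q) := (hmp.integrable_comp hfm).1 hcomp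
  have hfiOn : IntegrableOn q (nearD τ i j) := (integrable_indicator_iff (meas_near τ i j)).1 hfi
  refine ⟨hfiOn, ?_⟩
  have e1 : ∫ x in nearD τ i j, q x = ∫ x, (nearD τ i j).indicator q (T2 i j x) := by
    have := integral_map (μ := (volume : Measure (Cfg n))) hmp.measurable.aemeasurable
      (f := (nearD τ i j).indicator q) (by rw [hmp.map_eq]; exact hfm)
    rw [hmp.map_eq] at this
    rw [← this, integral_indicator (meas_near τ i j)]
  have hKi : Integrable ((box 0 1 n).indicator K) :=
    (int_box hKc).integrable_indicator meas_box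
  have hKi2 : Integrable (fun x => (box 0 1 n).indicator K (T2 i j x)) :=
    hmp.integrable_comp_of_integrable hKi
  have e2 : ∫ x in box 0 1 n, K x = ∫ x, (box 0 1 n).indicator K (T2 i j x) := by
    have := integral_map (μ := (volume : Measure (Cfg n))) hmp.measurable.aemeasurable
      (f := (box 0 1 n).indicator K) (by rw [hmp.map_eq]; exact hKi.aestronglyMeasurable)
    rw [hmp.map_eq] at this
    rw [← this, integral_indicator meas_box]
  set h : Cfg n → ℝ := (RR2 τ i j).indicator (fun x => (box 0 1 n).indicator K (T2 i j x)) with hh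
  have hhi : Integrable h := hKi2.indicator (meas_RR2 τ i j)
  obtain ⟨-, hi1, he1⟩ := (hFub n _ hcomp).1 j
  obtain ⟨-, hi2, he2⟩ := (hFub n h hhi).1 j
  have inner : ∀ x : Cfg n, (∫ y : E3, (nearD τ i j).indicator q (T2 i j (Function.update x j y)))
      ≤ ∫ y : E3, h (Function.update x j y) := by
    intro x
    by_cases hx : x ∈ GG τ i j
    · have a1 : (fun y : E3 => (nearD τ i j).indicator q (T2 i j (Function.update x j y)))
          = (ball (0 : E3) (τ / 4)).indicator (fun y => ‖uu F c i j x y‖ ^ 2 / ‖y‖ ^ 2) := by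
        funext y
        have hm := mem_near hτ hij x y
        have hd : T2 i j (Function.update x j y) i - T2 i j (Function.update x j y) j = y := by
          rw [T2_i hij, T2_j, Function.update_self, Function.update_of_ne hij]
          have : x i + (1 / 2 : ℝ) • y - (x i - (1 / 2 : ℝ) • y)
              = (1 / 2 : ℝ) • y + (1 / 2 : ℝ) • y := by abel
          rw [this, ← add_smul]; norm_num
        by_cases hy : ‖y‖ < τ / 4
        · rw [Set.indicator_of_mem (hm.2 ⟨hx, hy⟩), Set.indicator_of_mem
            (mem_ball_zero_iff.2 hy)]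
          simp only [hq, uu]
          rw [hd]
        · rw [Set.indicator_of_notMem (fun h => hy (hm.1 h).2), Set.indicator_of_notMem
            (fun h => hy (mem_ball_zero_iff.1 h))]
      have a2 : (fun y : E3 => h (Function.update x j y))
          = (ball (0 : E3) (τ / 2)).indicator (fun y => K (T2 i j (Function.update x j y))) := by
        funext y
        by_cases hy : ‖y‖ < τ / 2
        · have hm : Function.update x j y ∈ RR2 τ i j := by
            refine ⟨(GG_update hij x y).2 hx, ?_⟩
            rw [Function.update_self]; exact hy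
          rw [hh, Set.indicator_of_mem hm, Set.indicator_of_mem (RR2_box hτ hij hm),
            Set.indicator_of_mem (mem_ball_zero_iff.2 hy)]
        · have hm : Function.update x j y ∉ RR2 τ i j := by
            intro h
            have := h.2
            rw [Function.update_self] at this
            exact hy this
          rw [hh, Set.indicator_of_notMem hm, Set.indicator_of_notMem
            (fun h => hy (mem_ball_zero_iff.1 h))]
      rw [a1, a2, integral_indicator measurableSet_ball, integral_indicator measurableSet_ball]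
      have hu := uu_diff hF c hij x
      have b1 := hHL' (uu F c i j x) hu
      rw [show τ / 2 / 2 = τ / 4 by ring] at b1
      refine b1.trans ?_
      have hg : Continuous (g3 (uu F c i j x)) := by
        unfold g3
        have h := hu.continuous_fderiv (by norm_num)
        refine continuous_finsetSum _ fun k _ => ?_
        exact ((h.clm_apply continuous_const).norm).pow 2
      have hun : Continuous fun y => ‖uu F c i j x y‖ ^ 2 := (hu.continuous.norm).pow 2
      have hKx : Continuous fun y : E3 => K (T2 i j (Function.update x j y)) := by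
        refine hKc.comp ?_
        have e : (fun y => T2 i j (Function.update x j y))
            = fun y => T2 i j (Function.update x j 0) + LL i j y := by
          funext y; rw [T2_aff hij x y]
        rw [e]
        exact continuous_const.add (LL i j).continuous
      have hball : ∀ {g : E3 → ℝ}, Continuous g → IntegrableOn g (ball (0 : E3) (τ / 2)) :=
        fun hg => (hg.continuousOn.integrableOn_compact
          (isCompact_closedBall (0 : E3) (τ / 2))).mono_set ball_subset_closedBall
      have b2 : 8 * (∫ y in ball (0 : E3) (τ / 2), g3 (uu F c i j x) y)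
          + C * ∫ y in ball (0 : E3) (τ / 2), ‖uu F c i j x y‖ ^ 2
          = ∫ y in ball (0 : E3) (τ / 2), (8 * g3 (uu F c i j x) y
            + C * ‖uu F c i j x y‖ ^ 2) := by
        rw [integral_add ((hball hg).const_mul 8) ((hball hun).const_mul C),
          integral_const_mul, integral_const_mul]
      rw [b2]
      refine setIntegral_mono (((hball hg).const_mul 8).add ((hball hun).const_mul C))
        (hball hKx) fun y => ?_
      have := uu_g3 hF c hij x y
      simp only [hK]
      have e : uu F c i j x y = F (T2 i j (Function.update x j y)) - c := rfl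
      rw [← e]
      linarith
    · have a1 : (fun y : E3 => (nearD τ i j).indicator q (T2 i j (Function.update x j y)))
          = fun _ => 0 := by
        funext y
        exact Set.indicator_of_notMem (fun h => hx ((mem_near hτ hij x y).1 h).1) _
      have a2 : (fun y : E3 => h (Function.update x j y)) = fun _ => 0 := by
        funext y
        rw [hh]
        exact Set.indicator_of_notMem (fun h => hx ((GG_update hij x y).1 h.1)) _
      rw [a1, a2]
  have c1 : ∫ x, (nearD τ i j).indicator q (T2 i j x) ≤ ∫ x, h x := by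
    rw [he1, he2]
    exact setIntegral_mono hi1 hi2 inner
  have c2 : ∫ x, h x ≤ ∫ x, (box 0 1 n).indicator K (T2 i j x) := by
    refine integral_mono hhi hKi2 fun x => ?_
    rw [hh]
    exact Set.indicator_le_self' (fun y _ => Set.indicator_nonneg (fun z _ => hK0 z) _) x
  have c3 : ∫ x in box 0 1 n, K x = 4 * (∫ x in box 0 1 n, kin F x)
      + C * ∫ x in box 0 1 n, ‖F x - c‖ ^ 2 := by
    simp only [hK]
    rw [integral_add ((int_box (cont_kin hF)).const_mul 4) ((int_box hFc).const_mul C),
      integral_const_mul, integral_const_mul]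
  have d1 : 0 ≤ ∫ x in box 0 1 n, kin F x := integral_nonneg fun x => kin_nonneg F x
  have d2 : 0 ≤ ∫ x in box 0 1 n, ‖F x - c‖ ^ 2 := integral_nonneg fun x => by positivity
  calc ∫ x in nearD τ i j, q x ≤ ∫ x in box 0 1 n, K x := by
        rw [e1, e2]; exact c1.trans c2
    _ = _ := c3
    _ ≤ _ := by nlinarith [mul_nonneg hC d1]

end Pool.Agent.W486.TWB
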